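import Pool.Agent.Y148.ZC.Pie

/-!
# Murre's conjecture (C) and countability

`𝒱` is a class of smooth projective geometrically irreducible varieties over the field `k` closed
under products (for example all complex ones), `C` the Chow groups with rational coefficients (in
the form of their formal properties, `IsChowProj`), `H` a Weil cohomology theory (`IsWeilProj`), and
`E` a fixed curve in `𝒱` of positive genus. The geometric input consists of three theorems which
hold over `ℂ`: the theorem of Bloch and Srinivas for products with curves (`FibreProperty`); that a
family of cycles parametrised by a curve with only countably many classes is constant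
(`CountableFamilies`); and that the cycles modulo algebraic equivalence form a countable group
(`CountableModuloAlgebraic`).

**Theorem.** Murre's conjecture (C) for all `X` in `𝒱` is equivalent to the following statement: for
all `X` in `𝒱`, all Chow-Kunneth decompositions of `X` and all `j ≥ 2 i` the group
`CH^i(h^j(X)) = (π_j)_* CH^i(X)` is countable.

Murre's conjectures (B) and (D) predict that this group is zero for `j > 2 i` and that it is the
group of cycles modulo homological equivalence for `j = 2 i`. In particular, if (C) fails for some
`X` then there are a variety `Y` and a Chow-Kunneth decomposition of `Y` with an uncountable group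
`CH^i(h^j(Y))`, `j ≥ 2 i`.
-/

open CategoryTheory AlgebraicGeometry

set_option autoImplicit false

universe u v w

namespace Pool.Agent.Results.MP_38de51_ag.CountablePieces

open Pool.Agent.H914 Pool.Agent.H914.VarClass Pool.Agent.H914.VarClass.Obj Pool.Agent.W492.BB
  Pool.Agent.TH133 Pool.Agent.Y148.BS Pool.Agent.Y148.SS Pool.Agent.Y148.ZC

/-- Murre's conjecture (C) holds for all varieties if and only if the groups
`CH^i(h^j(X)) = (π_j)_* CH^i(X)`, `j ≥ 2 i`, are countable for all varieties `X` and all
Chow-Kunneth decompositions of `X`. -/
theorem result {k : Type u} [Field k] {𝒱 : VarClass k} (C : TheoryData.{u, v, 0} 𝒱 ℚ)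
    [IsChowProj C] {K : Type w} [Field K] (H : WeilTheoryData.{u, v, w} C K) [IsWeilProj H]
    (hF : FibreProperty C) (hI : CountableFamilies C) (hA : CountableModuloAlgebraic C)
    (E : 𝒱.Obj) (o : C.A E) (hE : E.dim = 1) (ho : IsDegreeOne C o)
    (hg : ¬ IsHomTrivial H (C.up (Obj.lift (𝟙 E) (𝟙 E)) (oddPart C o))) :
    MurreCAll H ↔ CountablePieces H :=
  pieces_iff hF hI hA hE ho hg

end Pool.Agent.Results.MP_38de51_ag.CountablePieces
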