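import Pool.Agent.Y107.CurveMain

open CategoryTheory AlgebraicGeometry

universe u v w

open Pool.Agent.H914 Pool.Agent.W492.BB Pool.Agent.TH133 Pool.Agent.Y107

/-- **Murre's condition (B) for products with curves and the algebraic part of (D).** `C` denotes the
Chow groups with rational coefficients of the varieties of the class `𝒱` and `H` a Weil cohomology
theory.

For a variety `X` with a Chow-Kunneth decomposition `π`, condition (B) holds for all products
`X × T` with curves if and only if, over the function fields of all curves, `π i` kills `CH^j(X)` for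
`i > 2 j` and `π (2 j)` maps `CH^j(X)` to constant classes. It implies (B) for `X` and that `π (2 j)`
kills the algebraically trivial classes in `CH^j(X)`, and over a universal domain it is equivalent to
these two conditions. In particular (B) for the products of `r + 1` curves is equivalent, over a
universal domain, to the algebraic part of (D) for the products of `r` curves. -/
theorem Pool.Agent.Results.MP_38de51_ag.CurveFactors.result {k : Type u} [Field k]
    {𝒱 : VarClass k} (C : TheoryData.{u, v, 0} 𝒱 ℚ) [IsChowProj C] {K : Type w} [Field K]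
    (H : WeilTheoryData.{u, v, w} C K) [IsWeilProj H] (hT : ∃ T : 𝒱.Obj, T.dim = 1) :
    (∀ (X : 𝒱.Obj) (π : ℕ → C.A (X.prod X)), IsCK H X π →
      (ProductsB C π ↔ GenericB C π) ∧ (ProductsB C π → SatB C π ∧ SatDalg C π) ∧
      (FibrewiseZero C → (ProductsB C π ↔ SatB C π ∧ SatDalg C π))) ∧
    ∀ r : ℕ, 1 ≤ r → (CurvesB C (r + 1) → CurvesDalg C r) ∧
      (FibrewiseZero C → (CurvesB C (r + 1) ↔ CurvesDalg C r)) := by
  constructor
  · intro X π hπ
    refine ⟨productsB_iff_genericB hT hπ, of_productsB hT hπ, fun hG =>
      ⟨of_productsB hT hπ, ?_⟩⟩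
    rintro ⟨h1, h2⟩ T c hc
    exact satB_prod hG hπ h1 h2 hc
  · intro r hr
    have h1 : CurvesB C (r + 1) → CurvesDalg C r := fun h => curvesDalg_of_curvesB (H := H) h
    exact ⟨h1, fun hG => ⟨h1, fun h => curvesB_of_curvesDalg (H := H) hG hT hr h⟩⟩
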