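import Pool.Agent.Y107.CurvePow

open CategoryTheory AlgebraicGeometry

universe u v w

open Pool.Agent.H914 Pool.Agent.W492.BB Pool.Agent.TH133 Pool.Agent.Y107

/-- **Murre's condition (B) for products with curves and the powers of algebraic equivalence.** Let
`X` be a variety with a Chow-Kunneth decomposition `π`, with filtration `F^s CH^j(X)`, and let
`A^s CH^j(X)` be the `s`-th power of algebraic equivalence. If (B) holds for the products of `X`
with any `r` curves, then `A^s CH^j(X) ⊆ F^s CH^j(X)` for `1 ≤ s ≤ r` and all `j`. Over a universal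
domain, (B) holds for the products of `X` with any two curves if and only if it holds for `X` and
`A^s CH^j(X) ⊆ F^s CH^j(X)` for `s = 1, 2` and all `j`. -/
theorem Pool.Agent.Results.MP_38de51_ag.PowersOfAlgebraicEquivalence.result {k : Type u} [Field k]
    {𝒱 : VarClass k} (C : TheoryData.{u, v, 0} 𝒱 ℚ) [IsChowProj C] {K : Type w} [Field K]
    (H : WeilTheoryData.{u, v, w} C K) [IsWeilProj H] (hT : ∃ T : 𝒱.Obj, T.dim = 1)
    (X : 𝒱.Obj) (π : ℕ → C.A (X.prod X)) (hπ : IsCK H X π) :
    (∀ r : ℕ, BTimes C r X π → ∀ s, 1 ≤ s → s ≤ r → ∀ j, algPower C X s j ≤ ckFil C π j s) ∧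
      (FibrewiseZero C → (BTimes C 2 X π ↔ SatB C π ∧
        (∀ j, algPower C X 1 j ≤ ckFil C π j 1) ∧ ∀ j, algPower C X 2 j ≤ ckFil C π j 2)) := by
  refine ⟨fun r h s h1 h2 => (algPower_le_ckFil_iff hπ s).2 (satPow_of_bTimes hT r hπ h s h1 h2),
    fun hG => ?_⟩
  rw [bTimes_two_iff hG hT hπ, algPower_le_ckFil_iff hπ, algPower_le_ckFil_iff hπ]
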