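import Pool.Agent.Y107.MC.Defect

/-!
# Murre's conjectures for varieties of small defect

`𝒱` is a class of smooth projective geometrically irreducible varieties over the field `k` closed
under products (for example all of them), `C` the Chow groups with rational coefficients (in the
form of their formal properties, `IsChowProj`) and `H` a Weil cohomology theory (`IsWeilProj`) for
which the theory of the Picard variety holds (`PicardProperty`).

A Chow-Kunneth decomposition `π` of `X` has defect at most `n` if, for every `i`, the motive
`(X, π_i)` is a direct factor of a sum of motives `h(Z)(-m)` with `m ≥ (i - n) / 2`. Defects add up in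
products. If `π` has defect at most four it satisfies (B), and if it has defect at most three it
satisfies (D). A decomposition satisfying motivic hard Lefschetz has defect at most `dim X`, and a
hypersurface (or complete intersection) of dimension `d` whose primitive motive has Chow coniveau `c`
has a decomposition of defect `d - 2 c`; by the theorem `MP_13bc1c_ag.JoinHypersurfaces`, this applies
to the hypersurfaces `f_0(x_0) + ... + f_r(x_r) = 0`, for which the coniveaus of the
`f_s(x_s) = z^d` add up.
-/

open CategoryTheory AlgebraicGeometry

set_option autoImplicit false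

universe u v w

namespace Pool.Agent.Results.MP_38de51_ag.SmallDefect

open Pool.Agent.H914 Pool.Agent.W492.BB Pool.Agent.TH133 Pool.Agent.Y107 Pool.Agent.Y107.MC

/-- Murre's conjectures (A), (B), (D) for products of varieties of total defect at most three, and
(A), (B) for total defect at most four. -/
theorem result {k : Type u} [Field k] {𝒱 : VarClass k} (C : TheoryData.{u, v, 0} 𝒱 ℚ)
    [IsChowProj C] {K : Type w} [Field K] (H : WeilTheoryData.{u, v, w} C K) [IsWeilProj H]
    (hPic : PicardProperty H) :
    (∀ (X : 𝒱.Obj) (π : ℕ → C.A (X.prod X)), IsCK H X π →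
      (DefectAtMost C 4 π → SatisfiesB0 C π) ∧ (DefectAtMost C 3 π → SatisfiesD1 H π)) ∧
    ∀ (n : ℕ) (X : 𝒱.Obj), HasDefect H n X → ∃ π, IsCK H X π ∧ DefectAtMost C n π ∧
      (n ≤ 4 → SatisfiesB0 C π) ∧ (n ≤ 3 → SatisfiesD1 H π) := by
  refine ⟨fun X π hπ => ⟨defect_B hπ hPic, defect_D hπ hPic⟩, fun n X h => ?_⟩
  obtain ⟨π, h1, h2⟩ := h.exists
  exact ⟨π, h1, h2, fun hn => defect_B h1 hPic (h2.mono hn),
    fun hn => defect_D h1 hPic (h2.mono hn)⟩

end Pool.Agent.Results.MP_38de51_ag.SmallDefect
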